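import Mathlib
set_option autoImplicit false

/-!
# An existential-universal definition of timelike relatedness from lightlike relatedness

In Minkowski spacetimes of dimension at least three over Euclidean ordered fields, timelike
relatedness is defined from lightlike relatedness by one existential-universal formula, with the
prefix `∃ ∃ ∃ ∃ ∃ ∃ ∃ ∀`.

The proof. If `μ(a, b) μ(b, c) μ(c, a) > 0` and `a, b, c` are not on a line, then no point is
lightlike related to all of `a, b, c`, and if `μ(a, b) μ(b, c) μ(c, a) < 0` and `a, b, c` are not on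
a line, then there is such a point (its existence is decided by the sign of the Gram determinant of
three vectors); if `a, b, c` are three points on a spacelike line, there is none. Therefore `x` and
`y` are timelike related iff they are different, not lightlike related, and there are points
`u ≠ v`, spacelike related to `x` and `y`, such that no point is lightlike related to `x, y, u`, no
point is lightlike related to `x, y, v`, and some point is lightlike related to `x, u, v`: if `x, y`
are spacelike related, then `u` and `v` are on the line through `x` and `y`, but then no point is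
lightlike related to `x, u, v`. Finally `a, b` are spacelike related iff they are different, not
lightlike related, and there is a point `z` which is lightlike related to `a` but not to `b` such
that no point is lightlike related to `a, b, z`.
-/

open FirstOrder FirstOrder.Language

universe u

namespace Pool.Agent.Results.MP_446ff5_lc.TimelikeFromLightlike

/-! ### The statement -/

/-- The relation symbols: one binary relation symbol `lam`. -/
inductive LightRel : ℕ → Type
  | lam : LightRel 2

/-- The language with one binary relation symbol and no function symbols. -/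
def lightLang : FirstOrder.Language.{0, 0} := ⟨fun _ => Empty, LightRel⟩

/-- `μ(x, y) = (x₀ - y₀)² - ∑ (xᵢ - yᵢ)²`, for points `x`, `y` of `F ^ (d + 1)` -/
def mu {F : Type u} [Field F] {d : ℕ} (x y : Fin (d + 1) → F) : F :=
  (x 0 - y 0) ^ 2 - ∑ i : Fin d, (x i.succ - y i.succ) ^ 2

/-- lightlike related: `μ(x, y) = 0` and `x ≠ y` -/
def Light {F : Type u} [Field F] {d : ℕ} (x y : Fin (d + 1) → F) : Prop := mu x y = 0 ∧ x ≠ y

/-- timelike related: `μ(x, y) > 0` -/
def Time {F : Type u} [Field F] [LinearOrder F] {d : ℕ} (x y : Fin (d + 1) → F) : Prop :=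
  0 < mu x y

/-- `F ^ (d + 1)` as a structure: the relation symbol is interpreted as lightlike relatedness. -/
instance minkowski (F : Type u) [Field F] (d : ℕ) : lightLang.Structure (Fin (d + 1) → F) where
  funMap := fun f _ => f.elim
  RelMap := fun r x =>
    match r, x with
    | .lam, x => Light (x 0) (x 1)

/-! ### The Minkowski form -/

section geometry

variable {F : Type u} [Field F]

/-- the Minkowski form on `F ^ (d + 1)` -/
def B {d : ℕ} (a b : Fin (d + 1) → F) : F := a 0 * b 0 - ∑ i : Fin d, a i.succ * b i.succ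

theorem B_comm {d : ℕ} (a b : Fin (d + 1) → F) : B a b = B b a := by
  unfold B
  congr 1
  · ring
  · exact Finset.sum_congr rfl fun i _ => by ring

theorem B_add {d : ℕ} (a b c : Fin (d + 1) → F) : B a (b + c) = B a b + B a c := by
  unfold B
  simp only [Pi.add_apply, mul_add, Finset.sum_add_distrib]
  ring

theorem B_smul {d : ℕ} (s : F) (a b : Fin (d + 1) → F) : B a (s • b) = s * B a b := by
  unfold B
  simp only [Pi.smul_apply, smul_eq_mul, mul_sub, Finset.mul_sum]
  congr 1
  · ring
  · exact Finset.sum_congr rfl fun i _ => by ring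

theorem B_sub {d : ℕ} (a b c : Fin (d + 1) → F) : B a (b - c) = B a b - B a c := by
  unfold B
  simp only [Pi.sub_apply, mul_sub, Finset.sum_sub_distrib]
  ring

theorem add_B {d : ℕ} (a b c : Fin (d + 1) → F) : B (a + b) c = B a c + B b c := by
  rw [B_comm, B_add, B_comm c a, B_comm c b]

theorem smul_B {d : ℕ} (s : F) (a b : Fin (d + 1) → F) : B (s • a) b = s * B a b := by
  rw [B_comm, B_smul, B_comm b a]

theorem sub_B {d : ℕ} (a b c : Fin (d + 1) → F) : B (a - b) c = B a c - B b c := by
  rw [B_comm, B_sub, B_comm c a, B_comm c b]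

theorem B_sub_sub {d : ℕ} (a b : Fin (d + 1) → F) :
    B (a - b) (a - b) = B a a - 2 * B a b + B b b := by
  rw [B_sub, sub_B, sub_B, B_comm b a]
  ring

theorem B_add_add {d : ℕ} (a b : Fin (d + 1) → F) :
    B (a + b) (a + b) = B a a + 2 * B a b + B b b := by
  rw [B_add, add_B, add_B, B_comm b a]
  ring

theorem zero_B {d : ℕ} (a : Fin (d + 1) → F) : B 0 a = 0 := by simp [B]

/-- the time direction -/
def e0 {d : ℕ} : Fin (d + 1) → F := Function.update 0 0 1

theorem B_e0 {d : ℕ} (a : Fin (d + 1) → F) : B a e0 = a 0 := by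
  unfold B e0
  simp

/-- the linear functional -/
def Bl {d : ℕ} (a : Fin (d + 1) → F) : (Fin (d + 1) → F) →ₗ[F] F where
  toFun := B a
  map_add' := B_add a
  map_smul' s b := B_smul s a b

theorem exists_orth {d : ℕ} (hd : 2 ≤ d) (a b : Fin (d + 1) → F) :
    ∃ w : Fin (d + 1) → F, w ≠ 0 ∧ B a w = 0 ∧ B b w = 0 := by
  have h : LinearMap.ker ((Bl a).prod (Bl b)) ≠ ⊥ := by
    apply LinearMap.ker_ne_bot_of_finrank_lt
    simp only [Module.finrank_prod, Module.finrank_self, Module.finrank_fin_fun]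
    omega
  obtain ⟨w, hw, hw0⟩ := (Submodule.ne_bot_iff _).1 h
  have hw' : (B a w, B b w) = (0, 0) := LinearMap.mem_ker.1 hw
  exact ⟨w, hw0, congrArg Prod.fst hw', congrArg Prod.snd hw'⟩

variable [LinearOrder F] [IsStrictOrderedRing F]

theorem neg_of_orth {d : ℕ} {t p : Fin (d + 1) → F} (ht : 0 < B t t) (h : B t p = 0)
    (hp : p ≠ 0) : B p p < 0 := by
  have hcs := Finset.sum_mul_sq_le_sq_mul_sq (Finset.univ : Finset (Fin d))
    (fun i => t i.succ) (fun i => p i.succ)
  unfold B at *
  set S := ∑ i : Fin d, t i.succ ^ 2 with hS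
  set Q := ∑ i : Fin d, p i.succ ^ 2 with hQ
  have hS' : ∑ i : Fin d, t i.succ * t i.succ = S := Finset.sum_congr rfl fun i _ => by ring
  have hQ' : ∑ i : Fin d, p i.succ * p i.succ = Q := Finset.sum_congr rfl fun i _ => by ring
  rw [hS'] at ht
  rw [hQ']
  have h1 : t 0 * p 0 = ∑ i : Fin d, t i.succ * p i.succ := by linarith
  rw [← h1] at hcs
  have hS0 : 0 ≤ S := Finset.sum_nonneg fun i _ => sq_nonneg _
  have hQ0 : 0 ≤ Q := Finset.sum_nonneg fun i _ => sq_nonneg _
  have ht0 : 0 < t 0 * t 0 := by linarith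
  rcases hQ0.lt_or_eq with hQ1 | hQ1
  · have h2 : t 0 * t 0 * (p 0 * p 0) < t 0 * t 0 * Q := by
      calc t 0 * t 0 * (p 0 * p 0) = (t 0 * p 0) ^ 2 := by ring
        _ ≤ S * Q := hcs
        _ < t 0 * t 0 * Q := by
          apply mul_lt_mul_of_pos_right _ hQ1
          linarith
    have := lt_of_mul_lt_mul_left h2 ht0.le
    linarith
  · exfalso
    apply hp
    have h3 : ∀ i : Fin d, p i.succ = 0 := by
      intro i
      have := (Finset.sum_eq_zero_iff_of_nonneg (fun i _ => sq_nonneg (p i.succ))).1 hQ1.symm i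
        (Finset.mem_univ i)
      exact pow_eq_zero_iff (two_ne_zero) |>.1 this
    rw [← hQ1, mul_zero] at hcs
    have h4 : t 0 * p 0 = 0 := pow_eq_zero_iff (two_ne_zero) |>.1 (le_antisymm hcs (sq_nonneg _))
    have h5 : t 0 ≠ 0 := by
      intro h
      rw [h, zero_mul] at ht0
      exact lt_irrefl _ ht0
    funext j
    refine Fin.cases ?_ (fun i => ?_) j
    · exact (mul_eq_zero.1 h4).resolve_left h5
    · exact h3 i

theorem nonpos_of_orth {d : ℕ} {t p : Fin (d + 1) → F} (ht : 0 < B t t) (h : B t p = 0) :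
    B p p ≤ 0 := by
  by_cases hp : p = 0
  · subst hp
    simp [B]
  · exact (neg_of_orth ht h hp).le

theorem cs_of_orth {d : ℕ} {t p r : Fin (d + 1) → F} (ht : 0 < B t t) (hp : B t p = 0)
    (hr : B t r = 0) : B p r ^ 2 ≤ B p p * B r r := by
  by_cases h0 : r = 0
  · subst h0
    simp [B]
  · have h1 := neg_of_orth ht hr h0
    have h2 : B t (B r r • p - B p r • r) = 0 := by
      rw [B_sub, B_smul, B_smul, hp, hr]
      ring
    have h3 := nonpos_of_orth ht h2
    have h4 : B (B r r • p - B p r • r) (B r r • p - B p r • r) =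
        B r r * (B p p * B r r - B p r ^ 2) := by
      simp only [B_sub, sub_B, B_smul, smul_B, B_comm r p]
      ring
    rw [h4] at h3
    by_contra h5
    rw [not_le] at h5
    have h6 : 0 < B r r * (B p p * B r r - B p r ^ 2) := mul_pos_of_neg_of_neg h1 (by linarith)
    linarith

/-- a timelike pair and a point which is spacelike to both points have no common light neighbour -/
theorem no_common {d : ℕ} {a b q : Fin (d + 1) → F} (ha : 0 < B a a) (hb : B b b < 0)
    (hab : B (a - b) (a - b) < 0) (hq : B q q = 0) (h1 : 2 * B q a = B a a)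
    (h2 : 2 * B q b = B b b) : False := by
  have h3 : B a (B a a • q - B q a • a) = 0 := by
    rw [B_sub, B_smul, B_smul, B_comm a q]
    ring
  have h4 : B a (B a a • b - B a b • a) = 0 := by
    rw [B_sub, B_smul, B_smul]
    ring
  have h5 := cs_of_orth ha h3 h4
  simp only [B_sub, sub_B, B_smul, smul_B, B_comm b a, B_comm a q, hq] at h5 hab
  set A := B a a
  set C := B b b
  set G := B a b
  have h6 : B q a = A / 2 := by linarith
  have h7 : B q b = C / 2 := by linarith
  rw [h6, h7] at h5
  have h8 : A ^ 4 * (C * (A - 2 * G + C)) ≤ 0 := by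
    ring_nf at h5 ⊢
    linarith
  have h9 : 0 < C * (A - 2 * G + C) := mul_pos_of_neg_of_neg hb (by linarith)
  have h10 : 0 < A ^ 4 * (C * (A - 2 * G + C)) := by positivity
  linarith

/-- three points in general position which are pairwise spacelike have a common light neighbour -/
theorem exists_common {d : ℕ} (hd : 2 ≤ d) (hsq : ∀ x : F, 0 ≤ x → ∃ y : F, y * y = x)
    {a b : Fin (d + 1) → F} (ha : B a a < 0) (hb : B b b < 0)
    (hab : B (a - b) (a - b) < 0) (hind : ∀ s : F, b ≠ s • a) :
    ∃ q : Fin (d + 1) → F, B q q = 0 ∧ 2 * B q a = B a a ∧ 2 * B q b = B b b := by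
  have hC : B a a - 2 * B a b + B b b < 0 := by
    simp only [B_sub, sub_B, B_comm b a] at hab
    linarith
  by_cases hD : B a a * B b b - B a b ^ 2 = 0
  · -- the degenerate case
    set k : Fin (d + 1) → F := B a a • b - B a b • a with hk
    have hk0 : k ≠ 0 := by
      intro h
      apply hind (B a b / B a a)
      have h1 : B a a • b = B a b • a := sub_eq_zero.1 (hk ▸ h)
      rw [div_eq_inv_mul, mul_smul, ← h1, smul_smul, inv_mul_cancel₀ ha.ne, one_smul]
    have hka : B k a = 0 := by
      rw [hk, sub_B, smul_B, smul_B, B_comm b a]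
      ring
    have hkb : B k b = 0 := by
      rw [hk, sub_B, smul_B, smul_B, ← hD]
      ring
    have hkk : B k k = 0 := by
      conv_lhs => rw [hk]
      rw [sub_B, smul_B, smul_B, B_comm b k, B_comm a k, hka, hkb]
      ring
    have hk00 : k 0 ≠ 0 := by
      intro h0
      apply hk0
      unfold B at hkk
      rw [h0, mul_zero, zero_sub, neg_eq_zero] at hkk
      funext j
      refine Fin.cases h0 (fun i => ?_) j
      have := (Finset.sum_eq_zero_iff_of_nonneg (fun i _ => mul_self_nonneg (k i.succ))).1 hkk i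
        (Finset.mem_univ i)
      exact mul_self_eq_zero.1 this
    -- the value on `k`
    have hGb : B b b - B a b ≠ 0 := by
      intro h
      have h1 : B a b = B b b := by linarith
      rw [h1] at hD hC
      have h2 : B b b * (B a a - B b b) = 0 := by rw [← hD]; ring
      rcases mul_eq_zero.1 h2 with h3 | h3
      · exact hb.ne h3
      · have : B a a = B b b := by linarith
        rw [this] at hC
        linarith
    set κ : F := B a a * (B b b - B a b) / 2 with hκ
    have hκ0 : κ ≠ 0 := div_ne_zero (mul_ne_zero ha.ne hGb) two_ne_zero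
    set s : F := κ / k 0 with hs
    set t : F := (B a a / 2 - s * a 0) / B a a with ht
    set l : Fin (d + 1) → F := s • e0 + t • a with hl
    have hlk : B l k = κ := by
      rw [hl, add_B, smul_B, smul_B, B_comm e0 k, B_e0, B_comm a k, hka, hs]
      field_simp
      ring
    have hla : B l a = B a a / 2 := by
      rw [hl, add_B, smul_B, smul_B, B_comm e0 a, B_e0, ht]
      have := ha.ne
      field_simp
      ring
    refine ⟨l + (-(B l l) / (2 * κ)) • k, ?_, ?_, ?_⟩
    · simp only [B_add, add_B, B_smul, smul_B, hkk, B_comm k l, hlk]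
      field_simp
      ring
    · rw [add_B, smul_B, hka, hla]
      ring
    · -- `b` is a combination of `k` and `a`
      have h1 : B a a * B (l + (-(B l l) / (2 * κ)) • k) b = B a a * (B b b / 2) := by
        have h2 : B a a • b = k + B a b • a := by rw [hk]; abel
        rw [← B_smul, h2, B_add, B_smul]
        simp only [add_B, smul_B, hkk, hka, hlk, hla, hκ]
        ring
      have := mul_left_cancel₀ ha.ne h1
      rw [this]
      ring
  · -- the nondegenerate case
    set D : F := B a a * B b b - B a b ^ 2 with hDdef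
    set v : Fin (d + 1) → F := (B b b * (B a a - B a b) / (2 * D)) • a +
      (B a a * (B b b - B a b) / (2 * D)) • b with hv
    have hva : B v a = B a a / 2 := by
      rw [hv, add_B, smul_B, smul_B, B_comm b a]
      field_simp
      rw [hDdef]
      ring
    have hvb : B v b = B b b / 2 := by
      rw [hv, add_B, smul_B, smul_B]
      field_simp
      rw [hDdef]
      ring
    have hvv : B v v = B a a * B b b * (B a a - 2 * B a b + B b b) / (4 * D) := by
      conv_lhs => rw [hv]
      rw [add_B, smul_B, smul_B, B_comm a v, B_comm b v, hva, hvb]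
      field_simp
      ring
    have hN : B a a * B b b * (B a a - 2 * B a b + B b b) < 0 :=
      mul_neg_of_pos_of_neg (mul_pos_of_neg_of_neg ha hb) hC
    -- it suffices to find `w`
    suffices h : ∃ w : Fin (d + 1) → F, B w a = 0 ∧ B w b = 0 ∧ B w w = - B v v by
      obtain ⟨w, hwa, hwb, hww⟩ := h
      have hvw : B v w = 0 := by
        rw [hv, add_B, smul_B, smul_B, B_comm a w, B_comm b w, hwa, hwb]
        ring
      refine ⟨v + w, ?_, ?_, ?_⟩
      · rw [B_add (v + w) v w, add_B v w v, add_B v w w, hww, hvw, B_comm w v, hvw]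
        ring
      · rw [add_B, hwa, hva]
        ring
      · rw [add_B, hwb, hvb]
        ring
    rcases lt_or_gt_of_ne hD with hneg | hpos
    · -- the plane is Lorentzian
      have hc : 0 < B (B a a • b - B a b • a) (B a a • b - B a b • a) := by
        have : B (B a a • b - B a b • a) (B a a • b - B a b • a) = B a a * D := by
          simp only [B_sub, sub_B, B_smul, smul_B, B_comm b a, hDdef]
          ring
        rw [this]
        exact mul_pos_of_neg_of_neg ha hneg
      obtain ⟨w, hw0, hwa, hwb⟩ := exists_orth hd a b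
      have hwc : B (B a a • b - B a b • a) w = 0 := by
        rw [sub_B, smul_B, smul_B, hwa, hwb]
        ring
      have hww := neg_of_orth hc hwc hw0
      have hvpos : 0 < B v v := by
        rw [hvv]
        exact div_pos_of_neg_of_neg hN (by linarith)
      obtain ⟨s, hs⟩ := hsq (-(B v v) / B w w) (div_nonneg_of_nonpos (by linarith) hww.le)
      refine ⟨s • w, ?_, ?_, ?_⟩
      · rw [smul_B, B_comm w a, hwa, mul_zero]
      · rw [smul_B, B_comm w b, hwb, mul_zero]
      · rw [smul_B, B_smul, ← mul_assoc, hs, div_mul_cancel₀ _ hww.ne]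
    · -- the plane is negative definite
      set α : F := (a 0 * B b b - b 0 * B a b) / D with hα
      set β : F := (b 0 * B a a - a 0 * B a b) / D with hβ
      set p : Fin (d + 1) → F := α • a + β • b with hp
      have hpa : B p a = a 0 := by
        rw [hp, add_B, smul_B, smul_B, B_comm b a, hα, hβ]
        field_simp
        rw [hDdef]
        ring
      have hpb : B p b = b 0 := by
        rw [hp, add_B, smul_B, smul_B, hα, hβ]
        field_simp
        rw [hDdef]
        ring
      have hpp : B p p ≤ 0 := by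
        have h1 : B p p = α ^ 2 * B a a + 2 * α * β * B a b + β ^ 2 * B b b := by
          rw [hp]
          simp only [B_add, add_B, B_smul, smul_B, B_comm b a]
          ring
        by_contra h2
        rw [not_le] at h2
        have h3 : B a a * B p p < 0 := mul_neg_of_neg_of_pos ha h2
        have h4 : B a a * B p p = (α * B a a + β * B a b) ^ 2 + β ^ 2 * D := by
          rw [h1, hDdef]
          ring
        rw [h4] at h3
        have : 0 ≤ (α * B a a + β * B a b) ^ 2 + β ^ 2 * D := by positivity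
        linarith
      have hta : B (e0 - p) a = 0 := by
        rw [sub_B, B_comm e0 a, B_e0, hpa, sub_self]
      have htb : B (e0 - p) b = 0 := by
        rw [sub_B, B_comm e0 b, B_e0, hpb, sub_self]
      have htp : B (e0 - p) p = 0 := by
        conv_lhs => rw [hp]
        rw [B_add, B_smul, B_smul, ← hp, hta, htb]
        ring
      have htt : 1 ≤ B (e0 - p) (e0 - p) := by
        rw [B_sub, htp, sub_zero, sub_B, B_e0]
        have h1 : B p e0 = B p p := by
          have := htp
          rw [sub_B, B_comm e0 p] at this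
          linarith
        rw [h1]
        have h2 : (e0 : Fin (d + 1) → F) 0 = 1 := by simp [e0]
        rw [h2]
        linarith
      have hvneg : B v v < 0 := by
        rw [hvv]
        exact div_neg_of_neg_of_pos hN (by linarith)
      obtain ⟨s, hs⟩ := hsq (-(B v v) / B (e0 - p) (e0 - p)) (by
        apply div_nonneg <;> linarith)
      have hne : B (e0 - p) (e0 - p) ≠ 0 := by
        intro h
        rw [h] at htt
        linarith
      refine ⟨s • (e0 - p), ?_, ?_, ?_⟩
      · rw [smul_B, hta, mul_zero]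
      · rw [smul_B, htb, mul_zero]
      · rw [smul_B, B_smul, ← mul_assoc, hs, div_mul_cancel₀ _ hne]

/-- a null vector orthogonal to a spacelike vector -/
theorem exists_null {d : ℕ} (hd : 2 ≤ d) (hsq : ∀ x : F, 0 ≤ x → ∃ y : F, y * y = x)
    {c : Fin (d + 1) → F} (hc : B c c < 0) :
    ∃ k : Fin (d + 1) → F, k ≠ 0 ∧ B k k = 0 ∧ B k c = 0 := by
  set t : Fin (d + 1) → F := e0 - (c 0 / B c c) • c with ht
  have htc : B t c = 0 := by
    rw [ht, sub_B, smul_B, B_comm e0 c, B_e0, div_mul_cancel₀ _ hc.ne, sub_self]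
  have htt : 0 < B t t := by
    have h1 : B t t = 1 - c 0 ^ 2 / B c c := by
      conv_lhs => rw [ht]
      rw [B_sub, B_smul, ← ht, htc, mul_zero, sub_zero, B_e0, ht]
      simp only [Pi.sub_apply, Pi.smul_apply, smul_eq_mul, e0, Function.update_self]
      ring
    have h2 : c 0 ^ 2 / B c c ≤ 0 := div_nonpos_of_nonneg_of_nonpos (sq_nonneg _) hc.le
    linarith
  obtain ⟨w, hw0, hwt, hwc⟩ := exists_orth hd t c
  have hww := neg_of_orth htt hwt hw0
  obtain ⟨s, hs⟩ := hsq (-(B t t) / B w w) (div_nonneg_of_nonpos (by linarith) hww.le)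
  have hkt : B (t + s • w) t = B t t := by
    rw [add_B, smul_B, B_comm w t, hwt]
    ring
  refine ⟨t + s • w, ?_, ?_, ?_⟩
  · intro h
    rw [h] at hkt
    have : B (0 : Fin (d + 1) → F) t = 0 := by simp [B]
    rw [this] at hkt
    exact htt.ne hkt
  · rw [B_add, hkt, B_smul, add_B, smul_B, hwt, zero_add, ← mul_assoc, hs,
      div_mul_cancel₀ _ hww.ne]
    ring
  · rw [add_B, smul_B, B_comm w c, hwc, htc]
    ring

theorem exists_scale {d : ℕ} {h g : Fin (d + 1) → F} (hA : 0 < B h h) (hg : B g g < 0)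
    (hhg : B h g = 0) : ∃ ρ : F, ρ ≠ 0 ∧ B (ρ • g) (ρ • g) < 0 ∧
      B (h - ρ • g) (h - ρ • g) < 0 := by
  have h1 : 0 < B h h / (-(B g g)) := div_pos hA (by linarith)
  set τ := B h h / (-(B g g)) with hτ
  have h2 : B h h = τ * (-(B g g)) := by
    rw [hτ, div_mul_cancel₀]
    exact neg_ne_zero.2 hg.ne
  refine ⟨1 + τ, by linarith, ?_, ?_⟩
  · rw [smul_B, B_smul, ← mul_assoc]
    exact mul_neg_of_pos_of_neg (by positivity) hg
  · rw [B_sub_sub, B_smul, hhg, smul_B, B_smul, h2]
    have h4 : 0 < (1 + τ) * (1 + τ) - τ := by nlinarith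
    have h5 : ((1 + τ) * (1 + τ) - τ) * B g g < 0 := mul_neg_of_pos_of_neg h4 hg
    ring_nf at h5 ⊢
    linarith

/-- orthogonal null vectors are proportional -/
theorem null_prop {d : ℕ} {k p : Fin (d + 1) → F} (hk0 : k ≠ 0) (hk : B k k = 0)
    (hp : B p p = 0) (hpk : B p k = 0) : ∃ s : F, p = s • k := by
  have hz : ∀ r : Fin (d + 1) → F, B r r = 0 → r 0 = 0 → r = 0 := by
    intro r hr h0
    unfold B at hr
    rw [h0, mul_zero, zero_sub, neg_eq_zero] at hr
    funext j
    refine Fin.cases h0 (fun i => ?_) j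
    have := (Finset.sum_eq_zero_iff_of_nonneg (fun i _ => mul_self_nonneg (r i.succ))).1 hr i
      (Finset.mem_univ i)
    exact mul_self_eq_zero.1 this
  have hk00 : k 0 ≠ 0 := fun h => hk0 (hz k hk h)
  refine ⟨p 0 / k 0, ?_⟩
  have h1 : p - (p 0 / k 0) • k = 0 := by
    apply hz
    · rw [B_sub, sub_B, sub_B, smul_B, smul_B, B_smul, B_smul, B_comm k p, hk, hp, hpk]
      ring
    · simp only [Pi.sub_apply, Pi.smul_apply, smul_eq_mul]
      field_simp
      ring
  exact sub_eq_zero.1 h1

/-! ### The relations -/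

theorem mu_eq {d : ℕ} (x y : Fin (d + 1) → F) : mu x y = B (x - y) (x - y) := by
  unfold mu B
  simp only [Pi.sub_apply, sq]

theorem mu_comm {d : ℕ} (x y : Fin (d + 1) → F) : mu x y = mu y x := by
  unfold mu
  congr 1
  · ring
  · exact Finset.sum_congr rfl fun i _ => by ring

/-- `z` certifies that `a` and `b` are spacelike related -/
def Cert {d : ℕ} (a b z : Fin (d + 1) → F) : Prop :=
  ¬ Light a b ∧ a ≠ b ∧ Light z a ∧ ¬ Light z b ∧ ∀ w, ¬ (Light w a ∧ Light w b ∧ Light w z)

theorem neg_of_cert {d : ℕ} {a b z : Fin (d + 1) → F} (h : Cert a b z) : mu a b < 0 := by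
  obtain ⟨h1, h2, ⟨h3, h3'⟩, h4, h5⟩ := h
  have hne : mu a b ≠ 0 := fun h => h1 ⟨h, h2⟩
  by_contra hcon
  have hpos : 0 < B (a - b) (a - b) := by
    rw [← mu_eq]
    exact lt_of_le_of_ne (not_lt.1 hcon) hne.symm
  set k := z - a with hk
  have hk0 : k ≠ 0 := sub_ne_zero.2 h3'
  have hkk : B k k = 0 := by rw [hk, ← mu_eq]; exact h3
  have hkab : B k (a - b) ≠ 0 := by
    intro h
    have := neg_of_orth hpos (by rw [B_comm]; exact h) hk0
    exact this.ne hkk
  set s : F := -(B (a - b) (a - b)) / (2 * B k (a - b)) with hs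
  have hs0 : s ≠ 0 := div_ne_zero (neg_ne_zero.2 hpos.ne') (mul_ne_zero two_ne_zero hkab)
  have hwb : mu (a + s • k) b = 0 := by
    rw [mu_eq, show a + s • k - b = (a - b) + s • k by abel]
    simp only [B_add (a - b + s • k), add_B, B_smul, smul_B, hkk, B_comm (a - b) k]
    rw [hs]
    field_simp
    ring
  have hwa : mu (a + s • k) a = 0 := by
    rw [mu_eq, show a + s • k - a = s • k by abel, smul_B, B_smul, hkk]
    ring
  have hwne : a + s • k ≠ a := by
    intro h
    have h6 : s • k = 0 := by simpa using h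
    rcases smul_eq_zero.1 h6 with h7 | h7
    · exact hs0 h7
    · exact hk0 h7
  have hwneb : a + s • k ≠ b := by
    intro h
    rw [← h, ← mu_eq, mu_comm, hwa] at hpos
    exact lt_irrefl _ hpos
  by_cases h1s : s = 1
  · apply h4
    have h6 : z = a + s • k := by rw [h1s, one_smul, hk]; abel
    rw [h6]
    exact ⟨hwb, hwneb⟩
  · refine h5 (a + s • k) ⟨⟨hwa, hwne⟩, ⟨hwb, hwneb⟩, ?_, ?_⟩
    · rw [mu_eq, show a + s • k - z = (s - 1) • k by rw [hk, sub_smul, one_smul, smul_sub]; abel,
        smul_B, B_smul, hkk]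
      ring
    · intro h
      have h6 : (s - 1) • k = 0 := by
        rw [sub_smul, one_smul]
        rw [hk] at h ⊢
        have := sub_eq_zero.2 h
        rw [← this]
        abel
      rcases smul_eq_zero.1 h6 with h7 | h7
      · exact h1s (sub_eq_zero.1 h7)
      · exact hk0 h7

theorem exists_cert {d : ℕ} (hd : 2 ≤ d) (hsq : ∀ x : F, 0 ≤ x → ∃ y : F, y * y = x)
    {a b : Fin (d + 1) → F} (h : mu a b < 0) : ∃ z, Cert a b z := by
  rw [mu_eq] at h
  obtain ⟨k, hk0, hkk, hkab⟩ := exists_null hd hsq h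
  have hmu : ∀ s : F, mu (a + s • k) b = mu a b := by
    intro s
    rw [mu_eq, mu_eq, show a + s • k - b = (a - b) + s • k by abel]
    simp only [B_add (a - b + s • k), add_B, B_smul, smul_B, hkk, B_comm (a - b) k, hkab]
    ring
  have hz : mu (a + k) b = mu a b := by
    have := hmu 1
    rwa [one_smul] at this
  rw [← mu_eq] at h
  have hka : a + k - a = k := by abel
  refine ⟨a + k, fun h1 => h.ne h1.1, ?_, ⟨?_, ?_⟩, ?_, ?_⟩
  · rintro rfl
    simp [mu] at h
  · rw [mu_eq, hka]
    exact hkk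
  · intro h1
    exact hk0 (by simpa using h1)
  · intro h1
    rw [Light, hz] at h1
    exact h.ne h1.1
  · rintro w ⟨⟨h1, h1'⟩, ⟨h2, h2'⟩, h3, h3'⟩
    rw [mu_eq] at h1 h3
    have h4 : w - (a + k) = (w - a) - k := by abel
    have h5 : B (w - a) k = 0 := by
      rw [h4, B_sub_sub, h1, hkk] at h3
      linarith
    obtain ⟨s, hs⟩ := null_prop hk0 hkk h1 h5
    have h6 : w = a + s • k := by rw [← hs]; abel
    rw [h6, hmu] at h2
    exact h.ne h2

/-- The condition of the defining formula. -/
theorem time_iff {d : ℕ} (hd : 2 ≤ d) (hsq : ∀ x : F, 0 ≤ x → ∃ y : F, y * y = x)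
    (x y : Fin (d + 1) → F) :
    Time x y ↔ ∃ u v z₁ z₂ z₃ z₄ w' : Fin (d + 1) → F, ∀ w : Fin (d + 1) → F,
      x ≠ y ∧ ¬ Light x y ∧ u ≠ v ∧ (Light w' x ∧ Light w' u ∧ Light w' v) ∧
      ¬ (Light w x ∧ Light w y ∧ Light w u) ∧ ¬ (Light w x ∧ Light w y ∧ Light w v) ∧
      (¬ Light x u ∧ x ≠ u ∧ Light z₁ x ∧ ¬ Light z₁ u ∧ ¬ (Light w x ∧ Light w u ∧ Light w z₁)) ∧
      (¬ Light y u ∧ y ≠ u ∧ Light z₂ y ∧ ¬ Light z₂ u ∧ ¬ (Light w y ∧ Light w u ∧ Light w z₂)) ∧
      (¬ Light x v ∧ x ≠ v ∧ Light z₃ x ∧ ¬ Light z₃ v ∧ ¬ (Light w x ∧ Light w v ∧ Light w z₃)) ∧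
      (¬ Light y v ∧ y ≠ v ∧ Light z₄ y ∧ ¬ Light z₄ v ∧
        ¬ (Light w y ∧ Light w v ∧ Light w z₄)) := by
  constructor
  · intro h
    have hne : x ≠ y := by
      rintro rfl
      simp [Time, mu] at h
    have hA : 0 < B (y - x) (y - x) := by rw [← mu_eq, mu_comm]; exact h
    -- the points `u`, `v`
    obtain ⟨e, he0, hhe, -⟩ := exists_orth hd (y - x) 0
    have hee := neg_of_orth hA hhe he0
    obtain ⟨f, hf0, hhf, hef⟩ := exists_orth hd (y - x) e
    have hff := neg_of_orth hA hhf hf0
    obtain ⟨ρ, hρ0, hρ1, hρ2⟩ := exists_scale hA hee hhe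
    obtain ⟨σ, hσ0, hσ1, hσ2⟩ := exists_scale hA hff hhf
    set u := x + ρ • e with hu
    set v := x + σ • f with hv
    have hux : u - x = ρ • e := by rw [hu]; abel
    have hvx : v - x = σ • f := by rw [hv]; abel
    have hyu : y - u = (y - x) - ρ • e := by rw [hu]; abel
    have hyv : y - v = (y - x) - σ • f := by rw [hv]; abel
    have m1 : mu x u < 0 := by rw [mu_comm, mu_eq, hux]; exact hρ1
    have m2 : mu y u < 0 := by rw [mu_eq, hyu]; exact hρ2
    have m3 : mu x v < 0 := by rw [mu_comm, mu_eq, hvx]; exact hσ1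
    have m4 : mu y v < 0 := by rw [mu_eq, hyv]; exact hσ2
    have huv : B (ρ • e - σ • f) (ρ • e - σ • f) < 0 := by
      simp only [B_sub, sub_B, B_smul, smul_B, B_comm f e, hef] at hρ1 hσ1 ⊢
      linarith
    have hind : ∀ s : F, σ • f ≠ s • (ρ • e) := by
      intro s hs
      have h1 : B (ρ • e) (σ • f) = 0 := by rw [smul_B, B_smul, hef]; ring
      rw [hs, B_smul] at h1
      rcases mul_eq_zero.1 h1 with h2 | h2
      · rw [h2, zero_smul] at hs
        rcases smul_eq_zero.1 hs with h3 | h3
        · exact hσ0 h3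
        · exact hf0 h3
      · exact hρ1.ne h2
    obtain ⟨q, hqq, hqa, hqb⟩ := exists_common hd hsq hρ1 hσ1 huv hind
    obtain ⟨z₁, hz₁⟩ := exists_cert hd hsq m1
    obtain ⟨z₂, hz₂⟩ := exists_cert hd hsq m2
    obtain ⟨z₃, hz₃⟩ := exists_cert hd hsq m3
    obtain ⟨z₄, hz₄⟩ := exists_cert hd hsq m4
    have hN : ∀ w g : Fin (d + 1) → F, mu x g < 0 → mu y g < 0 →
        ¬ (Light w x ∧ Light w y ∧ Light w g) := by
      rintro w g hg1 hg2 ⟨⟨l1, -⟩, ⟨l2, -⟩, ⟨l3, -⟩⟩
      rw [mu_eq] at l1 l2 l3
      have e1 : w - y = (w - x) - (y - x) := by abel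
      have e2 : w - g = (w - x) - (g - x) := by abel
      rw [e1, B_sub_sub, l1] at l2
      rw [e2, B_sub_sub, l1] at l3
      refine no_common (a := y - x) (b := g - x) (q := w - x) hA ?_ ?_ l1 ?_ ?_
      · rw [← mu_eq, mu_comm]
        exact hg1
      · rw [show y - x - (g - x) = y - g by abel, ← mu_eq]
        exact hg2
      · linarith
      · linarith
    refine ⟨u, v, z₁, z₂, z₃, z₄, x + q, fun w => ⟨hne, fun h1 => ?_, ?_, ⟨⟨?_, ?_⟩, ⟨?_, ?_⟩,
      ⟨?_, ?_⟩⟩, hN w u m1 m2, hN w v m3 m4,
      ⟨hz₁.1, hz₁.2.1, hz₁.2.2.1, hz₁.2.2.2.1, hz₁.2.2.2.2 w⟩,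
      ⟨hz₂.1, hz₂.2.1, hz₂.2.2.1, hz₂.2.2.2.1, hz₂.2.2.2.2 w⟩,
      ⟨hz₃.1, hz₃.2.1, hz₃.2.2.1, hz₃.2.2.2.1, hz₃.2.2.2.2 w⟩,
      ⟨hz₄.1, hz₄.2.1, hz₄.2.2.1, hz₄.2.2.2.1, hz₄.2.2.2.2 w⟩⟩⟩
    · rw [Time, h1.1] at h
      exact lt_irrefl _ h
    · intro h1
      apply hind 1
      rw [one_smul]
      have : u - x = v - x := by rw [h1]
      rw [hux, hvx] at this
      exact this.symm
    · rw [mu_eq, show x + q - x = q by abel]
      exact hqq
    · intro h1
      have h2 : q = 0 := by simpa using h1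
      rw [h2] at hqa
      have h3 : B (0 : Fin (d + 1) → F) (ρ • e) = 0 := by simp [B]
      rw [h3, mul_zero] at hqa
      exact hρ1.ne hqa.symm
    · rw [mu_eq, show x + q - u = q - ρ • e by rw [hu]; abel, B_sub_sub, hqq]
      linarith
    · intro h1
      have h2 : q = ρ • e := by
        rw [hu] at h1
        exact add_left_cancel h1
      rw [h2] at hqq
      exact hρ1.ne hqq
    · rw [mu_eq, show x + q - v = q - σ • f by rw [hv]; abel, B_sub_sub, hqq]
      linarith
    · intro h1
      have h2 : q = σ • f := by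
        rw [hv] at h1
        exact add_left_cancel h1
      rw [h2] at hqq
      exact hσ1.ne hqq
  · rintro ⟨u, v, z₁, z₂, z₃, z₄, w', h⟩
    obtain ⟨hne, hxy, huv, ⟨⟨l1, -⟩, ⟨l2, -⟩, ⟨l3, -⟩⟩, -, -, c1, c2, c3, c4⟩ := h x
    have m1 : mu x u < 0 := neg_of_cert ⟨c1.1, c1.2.1, c1.2.2.1, c1.2.2.2.1,
      fun w => (h w).2.2.2.2.2.2.1.2.2.2.2⟩
    have m2 : mu y u < 0 := neg_of_cert ⟨c2.1, c2.2.1, c2.2.2.1, c2.2.2.2.1,
      fun w => (h w).2.2.2.2.2.2.2.1.2.2.2.2⟩
    have m3 : mu x v < 0 := neg_of_cert ⟨c3.1, c3.2.1, c3.2.2.1, c3.2.2.2.1,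
      fun w => (h w).2.2.2.2.2.2.2.2.1.2.2.2.2⟩
    have m4 : mu y v < 0 := neg_of_cert ⟨c4.1, c4.2.1, c4.2.2.1, c4.2.2.2.1,
      fun w => (h w).2.2.2.2.2.2.2.2.2.2.2.2.2⟩
    have hmne : mu x y ≠ 0 := fun h0 => hxy ⟨h0, hne⟩
    by_contra hcon
    have hneg : mu x y < 0 := lt_of_le_of_ne (not_lt.1 hcon) hmne
    -- `x`, `y`, `g` are collinear
    have hcol : ∀ g : Fin (d + 1) → F, mu x g < 0 → mu y g < 0 →
        (∀ w, ¬ (Light w x ∧ Light w y ∧ Light w g)) → ∃ s : F, g - x = s • (y - x) := by
      intro g hg1 hg2 hN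
      by_contra hs
      push Not at hs
      have ha : B (y - x) (y - x) < 0 := by rw [← mu_eq, mu_comm]; exact hneg
      have hb : B (g - x) (g - x) < 0 := by rw [← mu_eq, mu_comm]; exact hg1
      have hab : B (y - x - (g - x)) (y - x - (g - x)) < 0 := by
        rw [show y - x - (g - x) = y - g by abel, ← mu_eq]
        exact hg2
      obtain ⟨q, hqq, hqa, hqb⟩ := exists_common hd hsq ha hb hab hs
      apply hN (x + q)
      refine ⟨⟨?_, ?_⟩, ⟨?_, ?_⟩, ?_, ?_⟩
      · rw [mu_eq, show x + q - x = q by abel]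
        exact hqq
      · intro h1
        have h2 : q = 0 := by simpa using h1
        rw [h2] at hqa
        have h3 : B (0 : Fin (d + 1) → F) (y - x) = 0 := by simp [B]
        rw [h3, mul_zero] at hqa
        exact ha.ne hqa.symm
      · rw [mu_eq, show x + q - y = q - (y - x) by abel, B_sub_sub, hqq]
        linarith
      · intro h1
        have h2 : q = y - x := by rw [← h1]; abel
        rw [h2] at hqq
        exact ha.ne hqq
      · rw [mu_eq, show x + q - g = q - (g - x) by abel, B_sub_sub, hqq]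
        linarith
      · intro h1
        have h2 : q = g - x := by rw [← h1]; abel
        rw [h2] at hqq
        exact hb.ne hqq
    obtain ⟨s, hs⟩ := hcol u m1 m2 fun w => (h w).2.2.2.2.1
    obtain ⟨t, ht⟩ := hcol v m3 m4 fun w => (h w).2.2.2.2.2.1
    have hxu : s ≠ 0 := by
      rintro rfl
      rw [zero_smul] at hs
      exact c1.2.1 (sub_eq_zero.1 hs).symm
    have hxv : t ≠ 0 := by
      rintro rfl
      rw [zero_smul] at ht
      exact c3.2.1 (sub_eq_zero.1 ht).symm
    rw [mu_eq] at l1 l2 l3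
    rw [show w' - u = (w' - x) - (u - x) by abel, hs, B_sub_sub, l1, B_smul, smul_B,
      B_smul] at l2
    rw [show w' - v = (w' - x) - (v - x) by abel, ht, B_sub_sub, l1, B_smul, smul_B,
      B_smul] at l3
    have ha : B (y - x) (y - x) < 0 := by rw [← mu_eq, mu_comm]; exact hneg
    set A := B (y - x) (y - x)
    set Q := B (w' - x) (y - x)
    have e1 : 2 * Q = s * A := by
      apply mul_left_cancel₀ hxu
      linarith
    have e2 : 2 * Q = t * A := by
      apply mul_left_cancel₀ hxv
      linarith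
    have e3 : s = t := mul_right_cancel₀ ha.ne (e1.symm.trans e2)
    apply huv
    rw [← e3, ← hs] at ht
    have := sub_left_injective ht
    exact this.symm

end geometry

/-! ### The formula -/

/-- atomic formulas; the free variables are `Sum.inl 0`, `Sum.inl 1`, the variables bound by
existential quantifiers are `Sum.inr 0`, ..., `Sum.inr 6`, the variable bound by the universal
quantifier is `Sum.inr 7` -/
def lm (i j : Fin 2 ⊕ Fin 8) : lightLang.BoundedFormula (Fin 2) 8 :=
  Relations.boundedFormula₂ (LightRel.lam : lightLang.Relations 2) (Term.var i) (Term.var j)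

/-- equality of two variables -/
def eqn (i j : Fin 2 ⊕ Fin 8) : lightLang.BoundedFormula (Fin 2) 8 :=
  Term.bdEqual (Term.var i) (Term.var j)

/-- the variable bound by the universal quantifier is not lightlike related to `i`, `j`, `k` -/
def no3 (i j k : Fin 2 ⊕ Fin 8) : lightLang.BoundedFormula (Fin 2) 8 :=
  (lm (Sum.inr 7) i ⊓ (lm (Sum.inr 7) j ⊓ lm (Sum.inr 7) k)).not

/-- `k` certifies that `i`, `j` are spacelike related -/
def crt (i j k : Fin 2 ⊕ Fin 8) : lightLang.BoundedFormula (Fin 2) 8 :=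
  (lm i j).not ⊓ ((eqn i j).not ⊓ (lm k i ⊓ ((lm k j).not ⊓ no3 i j k)))

/-- the quantifier-free part -/
def psi : lightLang.BoundedFormula (Fin 2) 8 :=
  (eqn (Sum.inl 0) (Sum.inl 1)).not ⊓ ((lm (Sum.inl 0) (Sum.inl 1)).not ⊓
    ((eqn (Sum.inr 0) (Sum.inr 1)).not ⊓
    ((lm (Sum.inr 6) (Sum.inl 0) ⊓ (lm (Sum.inr 6) (Sum.inr 0) ⊓ lm (Sum.inr 6) (Sum.inr 1))) ⊓
    (no3 (Sum.inl 0) (Sum.inl 1) (Sum.inr 0) ⊓ (no3 (Sum.inl 0) (Sum.inl 1) (Sum.inr 1) ⊓
    (crt (Sum.inl 0) (Sum.inr 0) (Sum.inr 2) ⊓ (crt (Sum.inl 1) (Sum.inr 0) (Sum.inr 3) ⊓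
    (crt (Sum.inl 0) (Sum.inr 1) (Sum.inr 4) ⊓ crt (Sum.inl 1) (Sum.inr 1) (Sum.inr 5)))))))))

theorem lm_qf (i j : Fin 2 ⊕ Fin 8) : (lm i j).IsQF :=
  (BoundedFormula.IsAtomic.rel _ _).isQF

theorem eqn_qf (i j : Fin 2 ⊕ Fin 8) : (eqn i j).IsQF :=
  (BoundedFormula.IsAtomic.equal _ _).isQF

theorem no3_qf (i j k : Fin 2 ⊕ Fin 8) : (no3 i j k).IsQF :=
  ((lm_qf _ _).inf ((lm_qf _ _).inf (lm_qf _ _))).not

theorem crt_qf (i j k : Fin 2 ⊕ Fin 8) : (crt i j k).IsQF :=
  (lm_qf _ _).not.inf ((eqn_qf _ _).not.inf ((lm_qf _ _).inf ((lm_qf _ _).not.inf (no3_qf _ _ _))))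

theorem psi_qf : psi.IsQF :=
  (eqn_qf _ _).not.inf ((lm_qf _ _).not.inf ((eqn_qf _ _).not.inf
    (((lm_qf _ _).inf ((lm_qf _ _).inf (lm_qf _ _))).inf ((no3_qf _ _ _).inf ((no3_qf _ _ _).inf
    ((crt_qf _ _ _).inf ((crt_qf _ _ _).inf ((crt_qf _ _ _).inf (crt_qf _ _ _)))))))))

/-- **Timelike relatedness is defined from lightlike relatedness by an existential-universal
formula.** There is a quantifier-free formula `ψ` in the language with one binary relation symbol
`λ` such that for every Euclidean ordered field `F`, every dimension `d + 1 ≥ 3` and all points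
`x`, `y` of `F ^ (d + 1)`, the formula `∃ u₁ ... ∃ u₇ ∀ w ψ` holds for `x`, `y` in `F ^ (d + 1)`
with lightlike relatedness if and only if `x` and `y` are timelike related. -/
theorem result : ∃ ψ : lightLang.BoundedFormula (Fin 2) 8, ψ.IsQF ∧
    ∀ (F : Type u) [Field F] [LinearOrder F] [IsStrictOrderedRing F],
      (∀ x : F, 0 ≤ x → ∃ y : F, y * y = x) → ∀ d : ℕ, 3 ≤ d + 1 →
      ∀ x y : Fin (d + 1) → F,
        Formula.Realize (ψ.all.ex.ex.ex.ex.ex.ex.ex : lightLang.Formula (Fin 2)) ![x, y] ↔
          Time x y := by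
  refine ⟨psi, psi_qf, fun F _ _ _ hsq d hd x y => ?_⟩
  rw [time_iff (by omega) hsq x y]
  unfold Formula.Realize
  rw [BoundedFormula.realize_ex]
  refine exists_congr fun u => ?_
  rw [BoundedFormula.realize_ex]
  refine exists_congr fun v => ?_
  rw [BoundedFormula.realize_ex]
  refine exists_congr fun z₁ => ?_
  rw [BoundedFormula.realize_ex]
  refine exists_congr fun z₂ => ?_
  rw [BoundedFormula.realize_ex]
  refine exists_congr fun z₃ => ?_
  rw [BoundedFormula.realize_ex]
  refine exists_congr fun z₄ => ?_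
  rw [BoundedFormula.realize_ex]
  refine exists_congr fun w' => ?_
  rw [BoundedFormula.realize_all]
  refine forall_congr' fun w => ?_
  simp only [psi, crt, no3, lm, eqn, BoundedFormula.realize_inf, BoundedFormula.realize_not,
    BoundedFormula.realize_rel₂, BoundedFormula.realize_bdEqual, Term.realize_var]
  exact Iff.rfl

end Pool.Agent.Results.MP_446ff5_lc.TimelikeFromLightlike
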